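import Pool.Agent.Helper39.Area.Wind
set_option autoImplicit false
open Complex MeasureTheory Metric Set
open scoped Real ComplexConjugate

/-! Project EK (exact integral means of `psi'` for large negative powers): common definitions.

Coordinates: `z` in the unit disc, `zeta = 1/z` outside; `phi β z = 1/z + β z`, `N β z = psi'(1/z)`.
Strip coordinate `ω = ξ + i η`, `0 ≤ η ≤ π`, `Z = exp ω`, `z = zf ω = (i - Z)/(i + Z)`. -/

namespace Pool.Agent.Helper52.EK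

open Pool.Agent.Helper39.Area

/-- data of a univalent function `φ ζ = ζ⁻¹ + β ζ` on a punctured disc of radius `R > 1` -/
structure ExtR (β : ℂ → ℂ) (R : ℝ) : Prop where
  one_lt : 1 < R
  diff : DifferentiableOn ℂ β (ball 0 R)
  inj : ∀ ζ ω : ℂ, ζ ∈ ball (0:ℂ) R → ω ∈ ball (0:ℂ) R → ζ ≠ 0 → ω ≠ 0 →
    ζ⁻¹ + β ζ = ω⁻¹ + β ω → ζ = ω
  ne : ∀ ζ : ℂ, ζ ∈ ball (0:ℂ) R → 1 - ζ ^ 2 * deriv β ζ ≠ 0

theorem ExtR.toExt {β : ℂ → ℂ} {R : ℝ} (h : ExtR β R) : Ext β := by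
  have hs : ball (0:ℂ) 1 ⊆ ball 0 R := ball_subset_ball h.one_lt.le
  exact ⟨h.diff.mono hs, fun ζ ω h1 h2 => h.inj ζ ω (hs h1) (hs h2), fun ζ h1 => h.ne ζ (hs h1)⟩

/-- `N β z = psi'(1/z)` -/
noncomputable def N (β : ℂ → ℂ) (z : ℂ) : ℂ := 1 - z ^ 2 * deriv β z

/-- Poisson kernel of the disc -/
noncomputable def Pk (ζ z : ℂ) : ℝ := (1 - ‖z‖ ^ 2) / ‖ζ - z‖ ^ 2

/-- normalised gradient of `log (Pk ζ)`: unimodular for `‖ζ‖ = 1`, `‖z‖ < 1` -/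
noncomputable def ee (ζ z : ℂ) : ℂ := (1 - conj z * ζ) / (ζ - z)

/-- the point `e^(t + i θ)` -/
noncomputable def ep (t θ : ℝ) : ℂ := Complex.exp ((t : ℂ) + (θ : ℂ) * I)

/-- the entropy loss at the target `ζ` for the normalised field `w` -/
noncomputable def Kf (w : ℂ → ℂ) (ζ : ℂ) (t₀ t₂ : ℝ) : ℝ :=
  (2 * π)⁻¹ * ∫ t in t₀..t₂, ∫ θ in (-π)..π,
    (t₂ - t) * Pk ζ (ep t θ) * ‖ee ζ (ep t θ) - w (ep t θ)‖ ^ 2 / Real.sinh t ^ 2

/-- the normalised gradient of `log ((1 - |z|^2)/|N|^2)` in the radial frame -/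
noncomputable def mrad (β : ℂ → ℂ) (z : ℂ) : ℂ :=
  (z / ‖z‖) * (-conj z - (1 - ‖z‖ ^ 2) * (deriv (N β) z / N β z))

/-- the field built from the function `G` of the radial gradient -/
noncomputable def wf (G : ℂ → ℂ) (β : ℂ → ℂ) (z : ℂ) : ℂ :=
  conj (z / ‖z‖) * G (mrad β z)

/-- admissible functions `G` (the certificate uses `Gc`, below) -/
structure GLip (G : ℂ → ℂ) (L : ℝ) : Prop where
  le_one : ∀ m, ‖G m‖ ≤ 1
  lip : ∀ m m', ‖G m - G m'‖ ≤ L * ‖m - m'‖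
  rot : ∀ u m : ℂ, ‖u‖ = 1 → ‖G (u * m) - G m‖ ≤ L * ‖u - 1‖

/-- `m` for `‖m‖ ≤ 1`, its inverse point `m/‖m‖²` otherwise -/
noncomputable def Gc (m : ℂ) : ℂ := m / ((max 1 (‖m‖ ^ 2) : ℝ) : ℂ)

/-- strip coordinate to the disc -/
noncomputable def zf (ω : ℂ) : ℂ := (I - Complex.exp ω) / (I + Complex.exp ω)

/-- derivative of `zf` -/
noncomputable def zd (ω : ℂ) : ℂ := -2 * I * Complex.exp ω / (Complex.exp ω + I) ^ 2

/-- `X = f_ω / (2 (f - f(a)))` in the strip coordinate -/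
noncomputable def Xf (β : ℂ → ℂ) (a : ℝ) (ω : ℂ) : ℂ :=
  zd ω * dphi β (zf ω) / (2 * (phi β (zf ω) - phi β (a : ℂ)))

/-- `τ = (1-a)/(1+a)`: the point `a` is `ω = log τ + i π/2` -/
noncomputable def tau (a : ℝ) : ℝ := (1 - a) / (1 + a)

noncomputable def kap (a : ℝ) (ω : ℂ) : ℂ :=
  Complex.exp ω ^ 2 * (1 - (tau a : ℂ) ^ 2) /
    ((Complex.exp ω ^ 2 + (tau a : ℂ) ^ 2) * (Complex.exp ω ^ 2 + 1))

/-- the point `ξ + i η` -/
noncomputable def pt (ξ η : ℝ) : ℂ := (ξ : ℂ) + (η : ℂ) * I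

/-- `e₀ = -(c - i s)²`, with `c = cos η`, `s = sin η` -/
noncomputable def e0 (s c : ℝ) : ℂ := -((c : ℂ) - (s : ℂ) * I) ^ 2

/-- the function `m` of `X`, `Y = X'` and the angle -/
noncomputable def mX (X Y : ℂ) (s c : ℝ) : ℂ := (1 + e0 s c) * (2 * X - 1 + Y / X) - 1

/-- the integrand: `‖G m - e₀‖²` -/
noncomputable def TG (G : ℂ → ℂ) (X Y : ℂ) (s c : ℝ) : ℝ := ‖G (mX X Y s c) - e0 s c‖ ^ 2

/-- the closed rectangle of the strip -/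
def Rect (x₁ x₂ : ℝ) : Set ℂ := Icc x₁ x₂ ×ℂ Icc 0 π

/-- double integral over a rectangle of the strip -/
noncomputable def II (x₁ x₂ : ℝ) (F : ℝ → ℝ → ℝ) : ℝ := ∫ ξ in x₁..x₂, ∫ η in (0:ℝ)..π, F ξ η

/-- analytic without zeros near a closed rectangle of the strip -/
structure NiceX (X : ℂ → ℂ) (x₁ x₂ : ℝ) : Prop where
  an : AnalyticOnNhd ℂ X (Rect x₁ x₂)
  ne : ∀ ω ∈ Rect x₁ x₂, X ω ≠ 0

/-- a C¹ function of a complex variable with its partial derivatives -/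
structure C1f (W Wx Wy : ℂ → ℝ) : Prop where
  hd : ∀ X : ℂ, HasFDerivAt W (Wx X • reCLM + Wy X • imCLM) X
  cx : Continuous Wx
  cy : Continuous Wy

/-- a C² function with its first partial derivatives and its Laplacian -/
structure C2f (U Ux Uy Lap : ℂ → ℝ) : Prop where
  h1 : C1f U Ux Uy
  h2 : ∃ Uxx Uxy Uyy : ℂ → ℝ, C1f Ux Uxx Uxy ∧ C1f Uy Uxy Uyy ∧ ∀ X, Lap X = Uxx X + Uyy X

/-- the integrated form of the certificate, for a general functional `T` -/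
def StripIneq (κ₂ : ℝ) (T : ℂ → ℂ → ℝ → ℝ → ℝ) : Prop :=
  ∃ C₁ : ℝ, ∀ (X : ℂ → ℂ) (x₁ x₂ l : ℝ), 1 ≤ l → x₁ + l ≤ x₂ - l → NiceX X x₁ x₂ →
    II (x₁ + l) (x₂ - l) (fun ξ η => T (X (pt ξ η)) (deriv X (pt ξ η)) (Real.sin η) (Real.cos η)) ≤
      (κ₂ + C₁ / l) * II x₁ x₂ (fun ξ η => ‖X (pt ξ η) - 1‖ ^ 2)

end Pool.Agent.Helper52.EK
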