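import Pool.Agent.Helper83.EK.KOne
import Pool.Agent.Helper61.EK.GibbsOf
import Pool.Agent.Helper5.EK.Entropy
import Pool.Agent.Helper28.EK.E6d
import Pool.Agent.Helper32.EK.Final
import Pool.Agent.Helper65.EK.Sharp
import Pool.Agent.Helper71.EK.Cert
import Pool.Agent.Helper44.EK.Strip
import Pool.Agent.Helper79.EK.GcLip
import Pool.Agent.Helper26.EK.KfCont
set_option autoImplicit false
open Complex MeasureTheory Metric Set
open scoped Real ComplexConjugate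

/-! Project EK: assembly. -/

namespace Pool.Agent.Helper52.EK

open Pool.Agent.Helper39.Area

theorem strip : StripIneq (179 / 20) (TG Gc) := by
  obtain ⟨U, Ux, Uy, Lap, V, Vx, Vy, V2, V2x, V2y, W, Wx, Wy, W2, W2x, W2y, C, hU, hV, hV2, hW,
    hW2, bU, bW, bW2, hp⟩ := Pool.Agent.Helper71.EK.cert
  exact Pool.Agent.Helper44.EK.strip_of_cert (by norm_num) Pool.Agent.Helper79.EK.Gc_lip hU hV hV2
    hW hW2 bU bW bW2 hp

theorem moments :
    ∀ p : ℝ, 9 / 2 ≤ p → ∃ C : ℝ, ∀ ψ : ℂ → ℂ, DifferentiableOn ℂ ψ {z : ℂ | 1 < ‖z‖} →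
      InjOn ψ {z : ℂ | 1 < ‖z‖} →
      (∃ b : ℂ, Filter.Tendsto (fun z => ψ z - z) (Bornology.cobounded ℂ) (nhds b)) →
      ∀ R : ℝ, 1 < R →
      (2 * π)⁻¹ * (∫ θ in (0:ℝ)..(2 * π), ‖deriv ψ (R * Complex.exp (θ * I))‖ ^ (-p)) ≤
        C * (R ^ 2 / (R ^ 2 - 1)) ^ (p - 1) := by
  have h1 := Pool.Agent.Helper83.EK.K_one (κ := 9 / 2)
    Pool.Agent.Helper79.EK.Gc_lip strip (by norm_num) (by norm_num)
  have h2 := Pool.Agent.Helper61.EK.gibbs_of (κ := 9 / 2) (G := Gc)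
    Pool.Agent.Helper5.EK.entropy
    (fun hw _ h1 h2 => Pool.Agent.Helper26.EK.Kf_cont hw h1 h2)
    (fun h => Pool.Agent.Helper70.EK.wf_cont Pool.Agent.Helper79.EK.Gc_lip h) h1
  exact Pool.Agent.Helper32.EK.final (Pool.Agent.Helper28.EK.moment_Ext (by norm_num) h2)

end Pool.Agent.Helper52.EK
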